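import Mathlib
import Pool.Agent.Helper13.P3.Psi

/-!
# PS4, P3-5: smooth numbers in a window
-/

namespace Pool.Agent.Helper19.P3

open Finset Pool.Agent.Helper6.Lehmer Pool.Agent.Helper6.LehmerCount Pool.Agent.Helper58.LT

/-- divisors of smooth numbers at every scale -/
theorem smooth_div {κ g u D : ℕ} (hu : u ≠ 0) (hs : ∀ p ∈ u.primeFactors, p ≤ 2 ^ κ) (hg : g ∣ u)
    (hgD : g ≤ D) : ∃ d, g ∣ d ∧ d ∣ u ∧ d ≤ D ∧ (d = u ∨ D < d * 2 ^ κ) := by
  classical
  obtain ⟨d, hd, hmax⟩ := Finset.exists_max_image ((u.divisors).filter (fun d => g ∣ d ∧ d ≤ D))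
    (fun d => d) ⟨g, by
      rw [mem_filter, Nat.mem_divisors]
      exact ⟨⟨hg, hu⟩, dvd_rfl, hgD⟩⟩
  rw [mem_filter, Nat.mem_divisors] at hd
  have hd0 : 0 < d := Nat.pos_of_dvd_of_pos hd.1.1 (Nat.pos_of_ne_zero hu)
  refine ⟨d, hd.2.1, hd.1.1, hd.2.2, ?_⟩
  by_contra hcon
  push Not at hcon
  obtain ⟨h1, h2⟩ := hcon
  obtain ⟨e, he⟩ := hd.1.1
  have he1 : e ≠ 1 := by
    intro h
    apply h1
    rw [he, h, mul_one]
  obtain ⟨q, hq, f, hf⟩ := Nat.exists_prime_and_dvd he1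
  have hqu : q ∣ u := ⟨d * f, by rw [he, hf]; ring⟩
  have h3 := hs q (Nat.mem_primeFactors.2 ⟨hq, hqu, hu⟩)
  have h4 : d * q ≤ D := (Nat.mul_le_mul_left d h3).trans h2
  have h5 := hmax (d * q) (by
    rw [mem_filter, Nat.mem_divisors]
    exact ⟨⟨⟨f, by rw [he, hf]; ring⟩, hu⟩, hd.2.1.mul_right q, h4⟩)
  have h6 : d * q ≤ d := h5
  have h7 : d * 2 ≤ d * q := Nat.mul_le_mul_left d hq.two_le
  omega

theorem window_count (i s c₀ : ℕ) (hs1 : 1 ≤ s) (hsi : s ≤ i) : ∃ C : ℕ, ∀ β κ : ℕ, Ok i β κ →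
    C * κ ≤ β → ∀ (a₀ : ℤ) (h : ℕ), h ≤ 2 ^ (2 * i * β + c₀ * κ) →
    ∀ Λ ⊆ Sm κ (s * β + c₀ * κ),
      (∀ t ∈ Λ, |psiS (2 ^ ((2 * i + 1) * β)) t - a₀| < 2 * h) →
      #Λ ≤ 2 ^ ((s - 1) * β + (β + 1) / 2 + C * κ) := by
  classical
  refine ⟨2 * c₀ + 7, ?_⟩
  intro β κ hok hC a h hh X hX hXw
  obtain ⟨s, rfl⟩ : ∃ s', s = s' + 1 := ⟨s - 1, by omega⟩
  rw [Nat.add_sub_cancel]
  have hκ := hok.one
  obtain ⟨Cp, hCp⟩ : ∃ Cp : ℕ, Cp = 2 * c₀ + 6 := ⟨_, rfl⟩
  obtain ⟨D, hD⟩ : ∃ D : ℕ, D = 2 ^ (s * β + (β + 1) / 2 + Cp * κ) := ⟨_, rfl⟩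
  have hD1 : 1 ≤ D := by rw [hD]; exact Nat.one_le_two_pow
  obtain ⟨N, hN⟩ : ∃ N : ℕ, N = 2 ^ ((2 * i + 1) * β) := ⟨_, rfl⟩
  rw [← hN] at hXw
  have hSm : ∀ x ∈ X, 1 ≤ x ∧ x ≤ 2 ^ ((s + 1) * β + c₀ * κ) ∧ Squarefree x ∧
      ∀ p ∈ x.primeFactors, p ≤ 2 ^ κ := by
    intro x hx
    have := hX hx
    unfold Sm at this
    rw [mem_filter, mem_Icc] at this
    exact ⟨this.1.1, this.1.2, this.2.1, this.2.2⟩
  have hex : ∀ x ∈ X, ∃ d, d ∣ x ∧ 1 ≤ d ∧ d ≤ D ∧ (d = x ∨ D < d * 2 ^ κ) := by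
    intro x hx
    obtain ⟨h1, h2, h3, h4⟩ := hSm x hx
    obtain ⟨d, -, h5, h6, h7⟩ := smooth_div (u := x) (by omega) h4 (one_dvd x) hD1
    exact ⟨d, h5, Nat.pos_of_dvd_of_pos h5 (by omega), h6, h7⟩
  choose! dd hdd using hex
  have hcard : #X ≤ #(Icc 1 D ×ˢ (univ : Finset Bool)) := by
    refine card_le_card_of_injOn (fun x => (dd x, decide (dd x = x))) ?_ ?_
    · intro x hx
      rw [mem_coe] at hx
      obtain ⟨h1, h2, h3, h4⟩ := hdd x hx
      rw [mem_coe, mem_product, mem_Icc]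
      exact ⟨⟨h2, h3⟩, mem_univ _⟩
    · intro x hx y hy hxy
      rw [mem_coe] at hx hy
      simp only [Prod.mk.injEq, decide_eq_decide] at hxy
      obtain ⟨e1, e2⟩ := hxy
      by_cases hc : dd x = x
      · have := e2.1 hc
        rw [← hc, ← this, e1]
      · have hc' : ¬ dd y = y := fun h => hc (e2.2 h)
        obtain ⟨a1, a2, a3, a4⟩ := hdd x hx
        obtain ⟨b1, b2, b3, b4⟩ := hdd y hy
        rw [← e1] at b1 b2 b3 b4 hc'
        obtain ⟨x1, x2, x3, x4⟩ := hSm x hx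
        obtain ⟨y1, y2, y3, y4⟩ := hSm y hy
        have a5 := a4.resolve_left hc
        obtain ⟨v, hv⟩ := a1
        obtain ⟨w, hw⟩ := b1
        have hv0 : v ≠ 0 := by rintro rfl; omega
        have hw0 : w ≠ 0 := by rintro rfl; omega
        have hvle : ∀ z v : ℕ, z ≤ 2 ^ ((s + 1) * β + c₀ * κ) → z = dd x * v →
            v * D ≤ 2 ^ ((s + 1) * β + c₀ * κ + κ) := by
          intro z v hz hzv
          calc v * D ≤ v * (dd x * 2 ^ κ) := Nat.mul_le_mul_left _ a5.le
            _ = z * 2 ^ κ := by rw [hzv]; ring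
            _ ≤ 2 ^ ((s + 1) * β + c₀ * κ) * 2 ^ κ := Nat.mul_le_mul_right _ hz
            _ = _ := by rw [← pow_add]
        have hv1 := hvle x v x2 hv
        have hw1 := hvle y w y2 hw
        have hvw : (v * w) * 2 ^ (2 * Cp * κ) ≤ 2 ^ (β + 2 * c₀ * κ + 2 * κ) := by
          have k1 : (v * D) * (w * D) ≤ 2 ^ ((s + 1) * β + c₀ * κ + κ) * 2 ^ ((s + 1) * β + c₀ * κ + κ) :=
            Nat.mul_le_mul hv1 hw1
          have k2 : (v * w) * 2 ^ (2 * Cp * κ) * 2 ^ (2 * s * β + β) ≤ (v * D) * (w * D) := by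
            have k3 : (v * D) * (w * D) = (v * w) * 2 ^ (2 * Cp * κ) * 2 ^ (2 * s * β + ((β + 1) / 2 + (β + 1) / 2)) := by
              rw [hD]
              have : (2 : ℕ) ^ (s * β + (β + 1) / 2 + Cp * κ) * 2 ^ (s * β + (β + 1) / 2 + Cp * κ) =
                  2 ^ (2 * Cp * κ) * 2 ^ (2 * s * β + ((β + 1) / 2 + (β + 1) / 2)) := by
                rw [← pow_add, ← pow_add]
                congr 1
                ring
              calc v * 2 ^ (s * β + (β + 1) / 2 + Cp * κ) * (w * 2 ^ (s * β + (β + 1) / 2 + Cp * κ))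
                  = (v * w) * ((2 : ℕ) ^ (s * β + (β + 1) / 2 + Cp * κ) *
                    2 ^ (s * β + (β + 1) / 2 + Cp * κ)) := by ring
                _ = _ := by rw [this]; ring
            rw [k3]
            apply Nat.mul_le_mul_left
            apply Nat.pow_le_pow_right (by norm_num)
            omega
          have k4 : 2 ^ ((s + 1) * β + c₀ * κ + κ) * 2 ^ ((s + 1) * β + c₀ * κ + κ) =
              2 ^ (β + 2 * c₀ * κ + 2 * κ) * 2 ^ (2 * s * β + β) := by
            rw [← pow_add, ← pow_add]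
            congr 1
            ring
          rw [k4] at k1
          exact Nat.le_of_mul_le_mul_right (k2.trans k1) (by positivity)
        have hbig : ∀ z, z ≤ 2 ^ ((s + 1) * β + c₀ * κ) → z ≤ 2 ^ ((8 * i + 16) * β) := by
          intro z hz
          refine hz.trans (Nat.pow_le_pow_right (by norm_num) ?_)
          have h5 : c₀ * κ ≤ β := le_trans (Nat.mul_le_mul_right κ (by omega)) hC
          have h6 : (s + 1) * β ≤ i * β := Nat.mul_le_mul_right β hsi
          nlinarith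
        have hxM := hbig x x2
        have hyM := hbig y y2
        have hvx : v ≤ x := Nat.le_of_dvd (by omega) ⟨dd x, by rw [mul_comm]; exact hv⟩
        have hwy : w ≤ y := Nat.le_of_dvd (by omega) ⟨dd x, by rw [mul_comm]; exact hw⟩
        have hpsi : |psiS N v - psiS N w| ≤ ((4 * h : ℕ) : ℤ) := by
          have p1 : psiS N x = psiS N (dd x) + psiS N v := by
            conv_lhs => rw [hv]
            exact psiS_mul (by omega) hv0
          have p2 : psiS N y = psiS N (dd x) + psiS N w := by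
            conv_lhs => rw [hw]
            exact psiS_mul (by omega) hw0
          have q1 := hXw x hx
          have q2 := hXw y hy
          rw [p1] at q1
          rw [p2] at q2
          rw [abs_lt] at q1 q2
          rw [abs_le]
          push_cast
          constructor <;> linarith [q1.1, q1.2, q2.1, q2.2]
        have key : v = w := by
          refine spacingS (m := (8 * i + 16) * β) (D := 4 * h) hv0 hw0
            (length_le hv0 (hvx.trans hxM)) (length_le hw0 (hwy.trans hyM)) hpsi ?_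
          have h8 : 4 * h + (8 * i + 16) * β ≤ 2 ^ (2 * i * β + c₀ * κ + κ + 2) := by
            have h9 : 4 * h ≤ 2 ^ (2 * i * β + c₀ * κ + 2) := by
              rw [pow_add]
              omega
            have h10 : (8 * i + 16) * β ≤ 2 ^ κ := le_trans (Nat.le_succ _) hok.po
            have h11 : (2 : ℕ) ^ (2 * i * β + c₀ * κ + 2) * 2 ^ κ = 2 ^ (2 * i * β + c₀ * κ + κ + 2) := by
              rw [← pow_add]
              congr 1
              ring
            have h12 : 2 ≤ (2 : ℕ) ^ κ := by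
              calc 2 = 2 ^ 1 := by norm_num
                _ ≤ 2 ^ κ := Nat.pow_le_pow_right (by norm_num) hκ
            have h13 : 2 ≤ (2 : ℕ) ^ (2 * i * β + c₀ * κ + 2) := by
              rw [pow_add]
              have := Nat.one_le_two_pow (n := 2 * i * β + c₀ * κ)
              omega
            rw [← h11]
            nlinarith
          have h14 : (4 * h + (8 * i + 16) * β) * (v * w) * 2 ^ (2 * Cp * κ) ≤
              2 ^ ((2 * i + 1) * β + (3 * c₀ + 3) * κ + 2) := by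
            calc (4 * h + (8 * i + 16) * β) * (v * w) * 2 ^ (2 * Cp * κ)
                = (4 * h + (8 * i + 16) * β) * ((v * w) * 2 ^ (2 * Cp * κ)) := by ring
              _ ≤ 2 ^ (2 * i * β + c₀ * κ + κ + 2) * 2 ^ (β + 2 * c₀ * κ + 2 * κ) :=
                  Nat.mul_le_mul h8 hvw
              _ = _ := by
                  rw [← pow_add]
                  congr 1
                  ring
          have h15 : 2 ^ ((2 * i + 1) * β + (3 * c₀ + 3) * κ + 2) < N * 2 ^ (2 * Cp * κ) := by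
            rw [hN, ← pow_add]
            apply Nat.pow_lt_pow_right (by norm_num)
            rw [hCp]
            nlinarith
          exact lt_of_mul_lt_mul_right (lt_of_le_of_lt h14 h15) (Nat.zero_le _)
        rw [hv, hw, key]
  refine hcard.trans ?_
  rw [card_product, Nat.card_Icc, card_univ, Fintype.card_bool]
  calc (D + 1 - 1) * 2 = 2 ^ (s * β + (β + 1) / 2 + Cp * κ + 1) := by
        rw [Nat.add_sub_cancel, hD, pow_succ]
    _ ≤ 2 ^ (s * β + (β + 1) / 2 + (2 * c₀ + 7) * κ) := by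
        apply Nat.pow_le_pow_right (by norm_num)
        rw [hCp]
        nlinarith

end Pool.Agent.Helper19.P3
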